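import Pool.Agent.H810R3.Spa.Main

set_option autoImplicit false

/-! Numbers whose digits in base `a` are fair coin tosses placed at arbitrary positions
`n 0 < n 1 < ...` and zero elsewhere: almost surely the orbit closure in every coprime base
is the whole circle, so the orbit-closure dimension inequality holds. -/

namespace Pool.Agent.Results.MP_c9a594_an.RandomSparse

open MeasureTheory ProbabilityTheory Pool.Agent.H810R3.Spa

/-- The closure of the forward orbit of `x` under multiplication by `b` modulo one. -/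
def orb (b : ℕ) (x : ℝ) : Set ℝ :=
  closure (Set.range (fun n : ℕ => Int.fract ((b : ℝ) ^ n * x)))

theorem irr {b : ℕ} {x : ℝ} (h : orb b x = Set.Icc 0 1) : Irrational x := by
  rintro ⟨q, rfl⟩
  have hd : (0 : ℝ) < q.den := by exact_mod_cast q.den_pos
  have hq : ((q : ℚ) : ℝ) = (q.num : ℝ) / q.den := by
    exact_mod_cast (Rat.num_div_den q).symm
  set F : Set ℝ := (fun i : ℕ => (i : ℝ) / q.den) '' (Set.Iio q.den) with hF
  have hfin : F.Finite := (Set.finite_Iio _).image _
  have hsub : orb b ((q : ℚ) : ℝ) ⊆ F := by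
    apply closure_minimal _ hfin.isClosed
    rintro _ ⟨n, rfl⟩
    have hz : (q.den : ℤ) ≠ 0 := by exact_mod_cast q.den_pos.ne'
    have hz' : (0 : ℤ) < q.den := by exact_mod_cast q.den_pos
    refine ⟨(((b : ℤ) ^ n * q.num) % q.den).toNat, ?_, ?_⟩
    · have h1 := Int.emod_nonneg ((b : ℤ) ^ n * q.num) hz
      have h2 := Int.emod_lt_of_pos ((b : ℤ) ^ n * q.num) hz'
      simp only [Set.mem_Iio]
      omega
    · have h1 := Int.emod_nonneg ((b : ℤ) ^ n * q.num) hz
      have h2 := Int.emod_lt_of_pos ((b : ℤ) ^ n * q.num) hz'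
      have h3 : (((((b : ℤ) ^ n * q.num) % q.den).toNat : ℕ) : ℝ) =
          ((((b : ℤ) ^ n * q.num) % q.den : ℤ) : ℝ) := by
        exact_mod_cast Int.toNat_of_nonneg h1
      simp only
      rw [h3]
      symm
      rw [Int.fract_eq_iff]
      refine ⟨by positivity, ?_, ((b : ℤ) ^ n * q.num) / q.den, ?_⟩
      · rw [div_lt_one hd]
        exact_mod_cast h2
      · have h4 := Int.emod_add_mul_ediv ((b : ℤ) ^ n * q.num) q.den
        have h5 : ((((b : ℤ) ^ n * q.num) % q.den : ℤ) : ℝ) +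
            q.den * ((((b : ℤ) ^ n * q.num) / q.den : ℤ) : ℝ) = (b : ℝ) ^ n * q.num := by
          exact_mod_cast h4
        rw [hq]
        field_simp
        linarith
  rw [h] at hsub
  exact (Set.Icc_infinite (zero_lt_one' ℝ)) (hfin.subset hsub)

theorem result {Ω : Type} [MeasurableSpace Ω] (P : Measure Ω) [IsProbabilityMeasure P]
    (ε : ℕ → Ω → ℝ) (h : Fair P ε) (a b : ℕ) (ha : 2 ≤ a) (hb : 2 ≤ b) (hab : Nat.Coprime a b)
    (n : ℕ → ℕ) (hn : StrictMono n) :
    ∀ᵐ ω ∂P, Irrational (X a n ε ω) ∧ orb b (X a n ε ω) = Set.Icc 0 1 ∧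
      1 ≤ dimH (orb a (X a n ε ω)) + dimH (orb b (X a n ε ω)) := by
  have hnear : ∀ᵐ ω ∂P, ∀ (θ : ℚ) (k : ℕ), ∃ m : ℕ,
      (1 + Real.cos (2 * Real.pi * (1 / ((k : ℝ) + 3)))) / 2 <
        (1 + Real.cos (2 * Real.pi * ((b : ℝ) ^ m * X a n ε ω - θ))) / 2 := by
    rw [ae_all_iff]
    intro θ
    rw [ae_all_iff]
    intro k
    refine near h ha hb hab hn θ _ ?_ ?_
    · linarith [Real.neg_one_le_cos (2 * Real.pi * (1 / ((k : ℝ) + 3)))]
    · have h1 : Real.cos (2 * Real.pi * (1 / ((k : ℝ) + 3))) < Real.cos 0 := by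
        apply Real.cos_lt_cos_of_nonneg_of_le_pi le_rfl
        · have : (1 : ℝ) / ((k : ℝ) + 3) ≤ 1 / 2 :=
            one_div_le_one_div_of_le (by norm_num) (by linarith [Nat.cast_nonneg (α := ℝ) k])
          nlinarith [Real.pi_pos]
        · positivity
      rw [Real.cos_zero] at h1
      linarith
  filter_upwards [hnear] with ω hω
  have horb : orb b (X a n ε ω) = Set.Icc 0 1 := dense_of hω
  refine ⟨irr horb, horb, ?_⟩
  rw [horb]
  have hdim : dimH (Set.Icc (0 : ℝ) 1) = 1 := by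
    have := Real.dimH_of_nonempty_interior (E := ℝ) (s := Set.Icc (0 : ℝ) 1)
      (by rw [interior_Icc]; exact ⟨1 / 2, by norm_num, by norm_num⟩)
    simpa using this
  rw [hdim]
  exact le_add_self

end Pool.Agent.Results.MP_c9a594_an.RandomSparse
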