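import Mathlib

set_option autoImplicit false

namespace Pool.Agent.Results.MP_c9a594_an.SmoothLiouville

open Finset

/-- the closure of the orbit of `x` under `x ↦ b x mod 1` -/
def orb (b : ℕ) (x : ℝ) : Set ℝ :=
  closure (Set.range (fun n : ℕ => Int.fract ((b : ℝ) ^ n * x)))

/-- lifting the exponent: if all primes of `s` divide `B - 1` (and `4 ∣ B - 1` if `s` is even) and all
primes of `q` divide `s`, then `(B - 1) q ∣ B ^ k - 1` implies `q ∣ k` -/
lemma lte {s : ℕ} {B : ℤ} (hB : 2 ≤ B) (hs : ∀ p : ℕ, p.Prime → p ∣ s → (p : ℤ) ∣ B - 1)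
    (h4 : 2 ∣ s → (4 : ℤ) ∣ B - 1) {q : ℕ} (hqs : ∀ p : ℕ, p.Prime → p ∣ q → p ∣ s) {k : ℕ}
    (h : (B - 1) * q ∣ B ^ k - 1) : q ∣ k := by
  rw [Nat.dvd_iff_prime_pow_dvd_dvd]
  intro p e hp he
  rcases Nat.eq_zero_or_pos e with rfl | he0
  · simp
  have hpq : p ∣ q := (dvd_pow_self p he0.ne').trans he
  have hps := hqs p hp hpq
  have hpB := hs p hp hps
  have hpint : Prime (p : ℤ) := Nat.prime_iff_prime_int.1 hp
  have hnB : ¬ (p : ℤ) ∣ B := by
    intro h1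
    have h2 : (p : ℤ) ∣ 1 := by
      have := dvd_sub h1 hpB
      simpa using this
    exact hpint.not_isUnit (isUnit_of_dvd_one h2)
  have hmul : emultiplicity (p : ℤ) (B ^ k - 1 ^ k) = emultiplicity (p : ℤ) (B - 1) +
      emultiplicity (p : ℤ) (k : ℤ) := by
    rcases hp.eq_two_or_odd' with rfl | hodd
    · have := Int.two_pow_sub_pow' k (x := B) (y := 1) (h4 hps) (by exact_mod_cast hnB)
      exact_mod_cast this
    · have := Int.emultiplicity_pow_sub_pow hp hodd (x := B) (y := 1) hpB hnB k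
      rw [this]
      congr 1
      exact (Int.natCast_emultiplicity p k).symm
  rw [one_pow] at hmul
  have h1 : emultiplicity (p : ℤ) ((B - 1) * q) ≤ emultiplicity (p : ℤ) (B ^ k - 1) :=
    emultiplicity_le_emultiplicity_of_dvd_right h
  rw [emultiplicity_mul hpint, hmul] at h1
  have hfin : emultiplicity (p : ℤ) (B - 1) ≠ ⊤ := by
    rw [ne_eq, emultiplicity_eq_top, not_not]
    exact Int.finiteMultiplicity_iff.2 ⟨by simpa using hp.ne_one, by omega⟩
  have h2 : emultiplicity (p : ℤ) (q : ℤ) ≤ emultiplicity (p : ℤ) (k : ℤ) :=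
    (ENat.add_le_add_iff_left hfin).1 h1
  have h3 : (e : ℕ∞) ≤ emultiplicity (p : ℤ) (q : ℤ) :=
    le_emultiplicity_of_pow_dvd (by exact_mod_cast he)
  have h4 : (p : ℤ) ^ e ∣ k := pow_dvd_of_le_emultiplicity (h3.trans h2)
  exact_mod_cast h4

/-- the powers of `B` cover the residue classes `1 + (B - 1) z` modulo `q` -/
lemma cover {s : ℕ} {B : ℤ} (hB : 2 ≤ B) (hs : ∀ p : ℕ, p.Prime → p ∣ s → (p : ℤ) ∣ B - 1)
    (h4 : 2 ∣ s → (4 : ℤ) ∣ B - 1) {q : ℕ} (hq : 1 ≤ q)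
    (hqs : ∀ p : ℕ, p.Prime → p ∣ q → p ∣ s) (z : ℤ) :
    ∃ k : ℕ, (q : ℤ) ∣ B ^ k - (1 + (B - 1) * z) := by
  have : NeZero q := ⟨by omega⟩
  let g : Fin q → ZMod q := fun k => ((∑ i ∈ range (k : ℕ), B ^ i : ℤ) : ZMod q)
  have hco : IsCoprime B ((B - 1) * q) := by
    refine IsCoprime.mul_right ⟨1, -1, by ring⟩ ?_
    rw [Int.isCoprime_iff_nat_coprime, Nat.coprime_iff_gcd_eq_one]
    by_contra hne
    obtain ⟨p, hp, hpd⟩ := Nat.exists_prime_and_dvd hne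
    have h1 : p ∣ B.natAbs := hpd.trans (Nat.gcd_dvd_left _ _)
    have h2 : p ∣ (q : ℤ).natAbs := hpd.trans (Nat.gcd_dvd_right _ _)
    rw [Int.natAbs_natCast] at h2
    have h3 := hs p hp (hqs p hp h2)
    have h5 : (p : ℤ) ∣ B := Int.natCast_dvd.2 h1
    have h6 : (p : ℤ) ∣ 1 := by
      have := dvd_sub h5 h3
      simpa using this
    exact (Nat.prime_iff_prime_int.1 hp).not_isUnit (isUnit_of_dvd_one h6)
  have hinj : Function.Injective g := by
    have hlt : ∀ k l : Fin q, (k : ℕ) < l → g k = g l → False := by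
      intro k l hkl he
      have h1 : (q : ℤ) ∣ (∑ i ∈ range (l : ℕ), B ^ i) - ∑ i ∈ range (k : ℕ), B ^ i := by
        have h2 : ((∑ i ∈ range (k : ℕ), B ^ i : ℤ) : ZMod q) =
          ((∑ i ∈ range (l : ℕ), B ^ i : ℤ) : ZMod q) := he
        exact (ZMod.intCast_eq_intCast_iff_dvd_sub _ _ q).1 h2
      have h2 : (B - 1) * q ∣ B ^ (k : ℕ) * (B ^ ((l : ℕ) - k) - 1) := by
        have h3 : B ^ (k : ℕ) * (B ^ ((l : ℕ) - k) - 1) =
            (B - 1) * ((∑ i ∈ range (l : ℕ), B ^ i) - ∑ i ∈ range (k : ℕ), B ^ i) := by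
          rw [mul_sub (B - 1), mul_geom_sum, mul_geom_sum, mul_sub, ← pow_add,
            Nat.add_sub_cancel' hkl.le]
          ring
        rw [h3]
        exact mul_dvd_mul_left _ h1
      have h3 : (B - 1) * q ∣ B ^ ((l : ℕ) - k) - 1 :=
        (hco.symm.pow_right).dvd_of_dvd_mul_left h2
      have h5 := lte hB hs h4 hqs h3
      have h6 := Nat.le_of_dvd (by omega) h5
      have := l.2
      omega
    intro k l he
    rcases lt_trichotomy (k : ℕ) l with h | h | h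
    · exact (hlt k l h he).elim
    · exact Fin.ext h
    · exact (hlt l k h he.symm).elim
  have hbij : Function.Bijective g := by
    rw [Fintype.bijective_iff_injective_and_card]
    exact ⟨hinj, by simp [ZMod.card]⟩
  obtain ⟨k, hk⟩ := hbij.2 (z : ZMod q)
  refine ⟨k, ?_⟩
  have h1 : (q : ℤ) ∣ z - ∑ i ∈ range (k : ℕ), B ^ i :=
    (ZMod.intCast_eq_intCast_iff_dvd_sub _ _ q).1 hk
  have h2 : B ^ (k : ℕ) - (1 + (B - 1) * z) =
      -((B - 1) * (z - ∑ i ∈ range (k : ℕ), B ^ i)) := by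
    rw [mul_sub, mul_geom_sum]
    ring
  rw [h2]
  exact (dvd_neg.2 (h1.mul_left _))

/-- the powers of `b` below `q` cover the residue classes `1 + M z` modulo `q`, for a fixed `M ≥ 1` -/
lemma cover' {s b : ℕ} (hb : 2 ≤ b) (hs1 : 1 ≤ s) (hsb : Nat.Coprime b s) :
    ∃ M : ℕ, 1 ≤ M ∧ ∀ q : ℕ, 1 ≤ q → (∀ p : ℕ, p.Prime → p ∣ q → p ∣ s) → ∀ z : ℤ,
      ∃ j : ℕ, j < q ∧ (q : ℤ) ∣ (b : ℤ) ^ j - (1 + M * z) := by
  set t := Nat.totient (s ^ 2) with ht
  have ht0 : 0 < t := Nat.totient_pos.2 (by positivity)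
  have hB2 : 2 ≤ b ^ t := hb.trans (Nat.le_self_pow ht0.ne' b)
  have hdvd : s ^ 2 ∣ b ^ t - 1 := by
    have h1 : b ^ t ≡ 1 [MOD s ^ 2] := Nat.ModEq.pow_totient (hsb.pow_right 2)
    exact (Nat.modEq_iff_dvd' (by omega)).1 h1.symm
  have hcast : ((b ^ t - 1 : ℕ) : ℤ) = ((b : ℤ) ^ t) - 1 := by
    rw [Nat.cast_sub (by omega)]; push_cast; ring
  refine ⟨b ^ t - 1, by omega, fun q hq hqs z => ?_⟩
  have hBB : (2 : ℤ) ≤ (b : ℤ) ^ t := by exact_mod_cast hB2
  obtain ⟨k, hk⟩ := cover (s := s) (B := (b : ℤ) ^ t) hBB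
    (by
      intro p _ hps
      rw [← hcast]
      exact Int.natCast_dvd_natCast.2 ((hps.trans (dvd_pow_self s two_ne_zero)).trans hdvd))
    (by
      intro h2
      rw [← hcast]
      have : 4 ∣ s ^ 2 := by
        obtain ⟨u, rfl⟩ := h2
        exact ⟨u ^ 2, by ring⟩
      exact_mod_cast this.trans hdvd) hq hqs z
  have hbq : Nat.Coprime b q := by
    rw [Nat.coprime_iff_gcd_eq_one]
    by_contra hne
    obtain ⟨p, hp, hpd⟩ := Nat.exists_prime_and_dvd hne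
    have h1 : p ∣ b := hpd.trans (Nat.gcd_dvd_left _ _)
    have h2 : p ∣ s := hqs p hp (hpd.trans (Nat.gcd_dvd_right _ _))
    exact (Nat.Prime.not_coprime_iff_dvd.2 ⟨p, hp, h1, h2⟩) hsb
  have hφ0 : 0 < Nat.totient q := Nat.totient_pos.2 hq
  refine ⟨(t * k) % Nat.totient q, (Nat.mod_lt _ hφ0).trans_le (Nat.totient_le q), ?_⟩
  have h1 : b ^ ((t * k) % Nat.totient q) ≡ b ^ (t * k) [MOD q] := by
    conv_rhs => rw [← Nat.div_add_mod (t * k) (Nat.totient q), pow_add, pow_mul]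
    have h2 : (b ^ Nat.totient q) ^ (t * k / Nat.totient q) ≡ 1 [MOD q] := by
      have := (Nat.ModEq.pow_totient hbq).pow (t * k / Nat.totient q)
      rwa [one_pow] at this
    have h3 := (h2.mul_right (b ^ ((t * k) % Nat.totient q))).symm
    rwa [one_mul] at h3
  have h2 : (q : ℤ) ∣ (b : ℤ) ^ (t * k) - (b : ℤ) ^ ((t * k) % Nat.totient q) := by
    have := Nat.modEq_iff_dvd.1 h1
    exact_mod_cast this
  rw [hcast]
  have h3 : (b : ℤ) ^ ((t * k) % Nat.totient q) - (1 + ((b : ℤ) ^ t - 1) * z) =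
      ((b : ℤ) ^ t) ^ k - (1 + ((b : ℤ) ^ t - 1) * z) -
        ((b : ℤ) ^ (t * k) - (b : ℤ) ^ ((t * k) % Nat.totient q)) := by
    rw [← pow_mul]; ring
  rw [h3]
  exact dvd_sub hk h2

/-- an irrational number is not too close to multiples of `1 / m` with `m ≤ Q` -/
lemma away {x : ℝ} (hx : Irrational x) (Q : ℕ) :
    ∃ η : ℝ, 0 < η ∧ ∀ m : ℕ, 1 ≤ m → m ≤ Q → ∀ p : ℤ, η < |m * x - p| := by
  induction Q with
  | zero => exact ⟨1, one_pos, fun m h1 h2 => by omega⟩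
  | succ Q ih =>
    obtain ⟨η, hη, h⟩ := ih
    have hirr : Irrational ((Q + 1 : ℕ) * x) := hx.natCast_mul (by omega)
    have hpos : 0 < |((Q + 1 : ℕ) : ℝ) * x - round (((Q + 1 : ℕ) : ℝ) * x)| := by
      rw [abs_pos, sub_ne_zero]
      exact hirr.ne_int _
    refine ⟨min η (|((Q + 1 : ℕ) : ℝ) * x - round (((Q + 1 : ℕ) : ℝ) * x)| / 2),
      lt_min hη (by linarith), fun m h1 h2 p => ?_⟩
    rcases Nat.lt_or_ge m (Q + 1) with h3 | h3
    · exact (min_le_left _ _).trans_lt (h m h1 (by omega) p)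
    · have : m = Q + 1 := by omega
      subst this
      refine (min_le_right _ _).trans_lt ?_
      have := round_le (((Q + 1 : ℕ) : ℝ) * x) p
      linarith

/-- the approximations may be taken in lowest terms -/
lemma lowest {s b : ℕ} (hb : 2 ≤ b) {x : ℝ} (hx : Irrational x)
    (h : ∀ Q : ℕ, ∃ q : ℕ, Q ≤ q ∧ (∀ p : ℕ, p.Prime → p ∣ q → p ∣ s) ∧
      ∃ p : ℤ, |q * x - p| ≤ 1 / (b : ℝ) ^ q) (Q : ℕ) :
    ∃ q : ℕ, Q ≤ q ∧ 1 ≤ q ∧ (∀ p : ℕ, p.Prime → p ∣ q → p ∣ s) ∧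
      ∃ p : ℤ, IsCoprime p q ∧ |q * x - p| ≤ 1 / (b : ℝ) ^ q := by
  obtain ⟨η, hη, haw⟩ := away hx Q
  obtain ⟨n, hn⟩ := exists_pow_lt_of_lt_one hη (show (1 / 2 : ℝ) < 1 by norm_num)
  obtain ⟨q, hq, hqs, p, hp⟩ := h (max n 1)
  have hq1 : 1 ≤ q := (le_max_right _ _).trans hq
  set d : ℕ := Int.gcd p q with hd
  have hd0 : 0 < d := Int.gcd_pos_of_ne_zero_right _ (by exact_mod_cast (by omega : q ≠ 0))
  obtain ⟨q', hq'⟩ : d ∣ q := by
    have := Int.gcd_dvd_right p (q : ℤ)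
    exact_mod_cast this
  obtain ⟨p', hp'⟩ : (d : ℤ) ∣ p := Int.gcd_dvd_left p (q : ℤ)
  have hq'1 : 1 ≤ q' := by
    rcases Nat.eq_zero_or_pos q' with h0 | h0
    · rw [h0] at hq'; omega
    · exact h0
  have hb1 : (1 : ℝ) ≤ b := by exact_mod_cast (by omega : 1 ≤ b)
  have hd1 : (1 : ℝ) ≤ d := by exact_mod_cast hd0
  have herr : |(q' : ℝ) * x - p'| ≤ 1 / (b : ℝ) ^ q := by
    have h1 : (q : ℝ) * x - p = d * (q' * x - p') := by
      rw [hq', hp']; push_cast; ring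
    rw [h1, abs_mul, abs_of_pos (by linarith)] at hp
    refine le_trans ?_ hp
    exact le_mul_of_one_le_left (abs_nonneg _) hd1
  have hqq : q' ≤ q := by rw [hq']; exact Nat.le_mul_of_pos_left _ hd0
  refine ⟨q', ?_, hq'1, fun r hr hrq => hqs r hr (by rw [hq']; exact hrq.mul_left _), p', ?_, ?_⟩
  · by_contra hlt
    push Not at hlt
    have h1 := haw q' hq'1 hlt.le p'
    have h2 : 1 / (b : ℝ) ^ q ≤ (1 / 2) ^ n := by
      rw [one_div_pow]
      refine one_div_le_one_div_of_le (by positivity) ?_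
      calc (2 : ℝ) ^ n ≤ 2 ^ q := pow_le_pow_right₀ (by norm_num) ((le_max_left _ _).trans hq)
        _ ≤ (b : ℝ) ^ q := pow_le_pow_left₀ (by norm_num) (by exact_mod_cast hb) _
    linarith
  · rw [Int.isCoprime_iff_gcd_eq_one]
    have h1 : Int.gcd p q = d * Int.gcd p' q' := by
      rw [hp', hq']; push_cast
      rw [Int.gcd_mul_left]; simp
    have h2 : d * 1 = d * Int.gcd p' q' := by rw [mul_one, ← h1]
    exact (Nat.eq_of_mul_eq_mul_left hd0 h2).symm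
  · refine herr.trans ?_
    exact one_div_le_one_div_of_le (by positivity) (pow_le_pow_right₀ hb1 hqq)

/-- density of the orbit -/
lemma dense {s b : ℕ} (hb : 2 ≤ b) (hs1 : 1 ≤ s) (hsb : Nat.Coprime b s) {x : ℝ}
    (hx : Irrational x)
    (h : ∀ Q : ℕ, ∃ q : ℕ, Q ≤ q ∧ (∀ p : ℕ, p.Prime → p ∣ q → p ∣ s) ∧
      ∃ p : ℤ, |q * x - p| ≤ 1 / (b : ℝ) ^ q) {c d : ℝ} (hc : 0 ≤ c) (hcd : c < d) (hd : d ≤ 1) :
    ∃ j : ℕ, Int.fract ((b : ℝ) ^ j * x) ∈ Set.Ioo c d := by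
  obtain ⟨M, hM1, hM⟩ := cover' hb hs1 hsb
  set η : ℝ := (d - c) / 4 with hη
  have hη0 : 0 < η := by rw [hη]; linarith
  obtain ⟨Q, hQ⟩ := exists_nat_gt ((M : ℝ) / η)
  obtain ⟨q, hQq, hq1, hqs, p, hco, hp⟩ := lowest hb hx h Q
  have hM1' : (1 : ℝ) ≤ M := by exact_mod_cast hM1
  have hq0 : (0 : ℝ) < q := by exact_mod_cast hq1
  have hqM : (M : ℝ) / q < η := by
    rw [div_lt_iff₀ hη0] at hQ
    rw [div_lt_iff₀ hq0, mul_comm]
    refine hQ.trans_le ?_
    exact mul_le_mul_of_nonneg_right (by exact_mod_cast hQq) hη0.le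
  have hq1η : 1 / (q : ℝ) < η := lt_of_le_of_lt (div_le_div_of_nonneg_right hM1' hq0.le) hqM
  -- choose the target `(p + M z) / q` in `(c + η, d - η)`
  set z : ℤ := ⌊((c + 2 * η) * q - p) / M⌋ with hz
  have hz1 : (z : ℝ) ≤ ((c + 2 * η) * q - p) / M := Int.floor_le _
  have hz2 : ((c + 2 * η) * q - p) / M < z + 1 := Int.lt_floor_add_one _
  rw [le_div_iff₀ (by linarith)] at hz1
  rw [div_lt_iff₀ (by linarith)] at hz2
  have hy1 : (p + M * z : ℝ) / q ≤ c + 2 * η := by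
    rw [div_le_iff₀ hq0]; linarith
  have hy2 : c + η < (p + M * z : ℝ) / q := by
    rw [lt_div_iff₀ hq0]
    rw [div_lt_iff₀ hq0] at hqM
    linarith
  -- `z ↦ p * z'` covers: solve `p (1 + M z') ≡ p + M z`
  obtain ⟨u, v, huv⟩ := hco
  obtain ⟨j, hjq, hj⟩ := hM q hq1 hqs (u * z)
  refine ⟨j, ?_⟩
  have h1 : (q : ℤ) ∣ (b : ℤ) ^ j * p - (p + M * z) := by
    have h2 : (b : ℤ) ^ j * p - (p + M * z) =
        p * ((b : ℤ) ^ j - (1 + M * (u * z))) - q * (M * z * v) := by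
        linear_combination ((M : ℤ) * z) * huv
    rw [h2]
    exact dvd_sub (hj.mul_left _) (dvd_mul_right _ _)
  obtain ⟨w, hw⟩ := h1
  have hw' : (b : ℝ) ^ j * p = (p + M * z) + q * w := by
    have : (b : ℤ) ^ j * p = (p + M * z) + q * w := by linarith
    exact_mod_cast this
  have herr : |(b : ℝ) ^ j * x - (w + (p + M * z) / q)| ≤ 1 / q := by
    have h2 : (b : ℝ) ^ j * x - (w + (p + M * z) / q) = (b : ℝ) ^ j * (q * x - p) / q := by
      rw [mul_sub, hw']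
      field_simp
      ring
    rw [h2, abs_div, abs_of_pos hq0, abs_mul, abs_of_nonneg (by positivity)]
    refine div_le_div_of_nonneg_right ?_ hq0.le
    have hb0 : (0 : ℝ) < b := by exact_mod_cast (by omega : 0 < b)
    have hb1 : (1 : ℝ) ≤ b := by exact_mod_cast (by omega : 1 ≤ b)
    calc (b : ℝ) ^ j * |q * x - p| ≤ (b : ℝ) ^ j * (1 / (b : ℝ) ^ q) :=
          mul_le_mul_of_nonneg_left hp (by positivity)
      _ ≤ (b : ℝ) ^ q * (1 / (b : ℝ) ^ q) :=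
          mul_le_mul_of_nonneg_right (pow_le_pow_right₀ hb1 hjq.le) (by positivity)
      _ = 1 := by field_simp
  rw [abs_le] at herr
  have hd4 : d = c + 4 * η := by rw [hη]; ring
  have hfr : Int.fract ((b : ℝ) ^ j * x) = (b : ℝ) ^ j * x - w := by
    rw [Int.fract_eq_iff]
    refine ⟨by linarith, by linarith, w, by ring⟩
  rw [hfr]
  constructor <;> linarith

/-- Let `b ≥ 2` and let `s ≥ 1` be coprime to `b`. Let `x ∈ [0, 1)` be irrational such that there are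
arbitrarily large integers `q`, all of whose prime factors divide `s`, with `‖q x‖ ≤ b ^ (-q)`. Then the
orbit of `x` under `y ↦ b y mod 1` is dense in `[0, 1]`, and Furstenberg's inequality holds for `x`, `b`
and every `a`. -/
theorem result : ∀ b s : ℕ, 2 ≤ b → 1 ≤ s → Nat.Coprime b s → ∀ x : ℝ, x ∈ Set.Ico (0 : ℝ) 1 →
    Irrational x →
    (∀ Q : ℕ, ∃ q : ℕ, Q ≤ q ∧ (∀ p : ℕ, p.Prime → p ∣ q → p ∣ s) ∧
      ∃ p : ℤ, |q * x - p| ≤ 1 / (b : ℝ) ^ q) →
    orb b x = Set.Icc 0 1 ∧ ∀ a : ℕ, 1 ≤ dimH (orb a x) + dimH (orb b x) := by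
  intro b s hb hs1 hsb x _ hx h
  have hsub : Set.range (fun n : ℕ => Int.fract ((b : ℝ) ^ n * x)) ⊆ Set.Icc 0 1 := by
    rintro _ ⟨n, rfl⟩
    exact ⟨Int.fract_nonneg _, (Int.fract_lt_one _).le⟩
  have horb : orb b x = Set.Icc 0 1 := by
    refine Set.Subset.antisymm (closure_minimal hsub isClosed_Icc) ?_
    have h1 : Set.Ioo (0 : ℝ) 1 ⊆ orb b x := by
      intro y hy
      refine Metric.mem_closure_iff.2 fun ε hε => ?_
      obtain ⟨j, hj⟩ := dense hb hs1 hsb hx h (c := y) (d := min (y + ε) 1) hy.1.le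
        (lt_min (by linarith) hy.2) (min_le_right _ _)
      refine ⟨_, ⟨j, rfl⟩, ?_⟩
      rw [Real.dist_eq, abs_lt]
      have h2 := hj.1
      have h3 := hj.2.trans_le (min_le_left _ _)
      constructor <;> linarith
    have h2 := closure_minimal h1 isClosed_closure
    rwa [closure_Ioo (by norm_num)] at h2
  refine ⟨horb, fun a => ?_⟩
  have hdim : dimH (orb b x) = 1 := by
    rw [horb]
    have := Real.dimH_of_nonempty_interior (E := ℝ) (s := Set.Icc (0 : ℝ) 1)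
      (by rw [interior_Icc]; exact ⟨1 / 2, by norm_num, by norm_num⟩)
    rw [this]
    simp
  rw [hdim]
  exact le_add_self

end Pool.Agent.Results.MP_c9a594_an.SmoothLiouville
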